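import Pool.Agent.Y819.ZF.Stm2

/-!
# Project ZF, second part: the numbering of the vertices does not matter, and the two descriptions
of a simple graph (`S_NUM` and `S_GME` from `S_ISO`)
-/

set_option autoImplicit false

namespace Pool.Agent.Y212.ZF

open Pool.Agent.H604R2.LEC Pool.Agent.Y819.ZF

/-- the image of an edge under a permutation of the vertices -/
def emap {n : ℕ} (σ : Equiv.Perm (Fin n)) (x : Ed n) : Ed n :=
  if h : σ x.1.1 < σ x.1.2 then ⟨(σ x.1.1, σ x.1.2), h⟩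
  else ⟨(σ x.1.2, σ x.1.1),
    lt_of_le_of_ne (not_lt.mp h) (fun h' => x.2.ne' (σ.injective h'))⟩

theorem emap_ends {n : ℕ} (σ : Equiv.Perm (Fin n)) (x : Ed n) :
    ((emap σ x).1.1 = σ x.1.1 ∧ (emap σ x).1.2 = σ x.1.2) ∨
      ((emap σ x).1.1 = σ x.1.2 ∧ (emap σ x).1.2 = σ x.1.1) := by
  unfold emap
  split
  · exact Or.inl ⟨rfl, rfl⟩
  · exact Or.inr ⟨rfl, rfl⟩

theorem emap_symm {n : ℕ} (σ : Equiv.Perm (Fin n)) (x : Ed n) : emap σ.symm (emap σ x) = x := by
  obtain ⟨⟨a, b⟩, hab⟩ := x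
  have hab' : a < b := hab
  by_cases h : σ a < σ b
  · have h1 : emap σ ⟨(a, b), hab⟩ = ⟨(σ a, σ b), h⟩ := dif_pos h
    rw [h1]
    simp [emap, hab']
  · have h1 : emap σ ⟨(a, b), hab⟩ = ⟨(σ b, σ a), _⟩ := dif_neg h
    rw [h1]
    simp [emap, hab'.not_gt]

/-- the permutation of the edges -/
def eperm {n : ℕ} (σ : Equiv.Perm (Fin n)) : Ed n ≃ Ed n where
  toFun := emap σ
  invFun := emap σ.symm
  left_inv := emap_symm σ
  right_inv := fun x => by
    have := emap_symm σ.symm x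
    rwa [Equiv.symm_symm] at this

theorem num (h : S_ISO) : S_NUM := by
  intro p _ d V μ hμ n e e' hne
  let σ : Equiv.Perm (Fin n) := e.symm.trans e'
  have hs : ∀ a, e'.symm (σ a) = e.symm a := fun a => e'.symm_apply_apply _
  have hn : ∀ x, nm μ e x = nm μ e' (eperm σ x) := by
    intro x
    change μ (e.symm x.1.1) (e.symm x.1.2) =
      μ (e'.symm (emap σ x).1.1) (e'.symm (emap σ x).1.2)
    rcases emap_ends σ x with ⟨h1, h2⟩ | ⟨h1, h2⟩
    · rw [h1, h2, hs, hs]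
    · rw [h1, h2, hs, hs, hμ]
  let ψ : ME (nm μ e) ≃ ME (nm μ e') := Equiv.sigmaCongr (eperm σ) fun x => finCongr (hn x)
  obtain ⟨ε, hε, hc⟩ := h (ZMod p) d n (ME (nm μ e)) (ME (nm μ e')) (mτ _) (mη _) (mτ _) (mη _) ψ σ
    (fun x => emap_ends σ x.1)
  rw [hc]
  rcases hε with rfl | rfl
  · simpa using hne
  · simpa using hne

theorem gme (h : S_ISO) : S_GME := by
  intro p _ d V G n e
  have h1 : ∀ x : Ed n, G.Adj (e.symm x.1.1) (e.symm x.1.2) → nm (ind G) e x = 1 :=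
    fun x hx => if_pos hx
  have h0 : ∀ x : Ed n, ¬ G.Adj (e.symm x.1.1) (e.symm x.1.2) → nm (ind G) e x = 0 :=
    fun x hx => if_neg hx
  have hle : ∀ x : Ed n, nm (ind G) e x ≤ 1 := by
    intro x
    by_cases hx : G.Adj (e.symm x.1.1) (e.symm x.1.2)
    · exact (h1 x hx).le
    · rw [h0 x hx]
      exact Nat.zero_le _
  let ψ : GE (G.comap e.symm) ≃ ME (nm (ind G) e) :=
    { toFun := fun x => ⟨x.1, ⟨0, by
        rw [h1 x.1 x.2]
        exact Nat.one_pos⟩⟩
      invFun := fun y => ⟨y.1, by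
        by_contra hc
        have h2 := y.2.2
        have h3 := h0 y.1 hc
        omega⟩
      left_inv := fun x => rfl
      right_inv := fun y => by
        obtain ⟨x, i⟩ := y
        refine Sigma.ext rfl (heq_of_eq (Fin.ext ?_))
        have h2 := i.2
        have h3 := hle x
        change 0 = (i : ℕ)
        omega }
  obtain ⟨ε, hε, hc⟩ := h (ZMod p) d n (GE (G.comap e.symm)) (ME (nm (ind G) e))
    (gτ (G.comap e.symm)) (gη (G.comap e.symm)) (mτ (nm (ind G) e)) (mη (nm (ind G) e)) ψ 1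
    (fun x => Or.inl ⟨rfl, rfl⟩)
  rw [hc]
  rcases hε with rfl | rfl
  · simp
  · simp

end Pool.Agent.Y212.ZF
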